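import Pool.Agent.V8H3.S6.Spec
import Pool.Agent.V8H3.S6C.FacD
import Pool.Agent.V8H3.GC.CkS

/-! the cliques with the largest vertex 27, 26, 25, 24 -/

set_option autoImplicit false
set_option maxRecDepth 1000000

namespace Pool.Agent.V8H3.S6K

open Pool.Agent.V8H3.GC Pool.Agent.V8H3.S6 Pool.Agent.V8H3.S6C

theorem k27 : ck1 (Pool.Agent.V8H54.LT.adjR rows) 34 Lf 27 [26, 25, 24, 23, 22, 21, 20, 19, 18, 17, 16, 15, 14, 13, 12, 11, 10, 9, 8, 7, 6, 5, 4, 3, 2, 1, 0] = true := by decide +kernel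

theorem k26 : ck1 (Pool.Agent.V8H54.LT.adjR rows) 34 Lf 26 [25, 24, 23, 22, 21, 20, 19, 18, 17, 16, 15, 14, 13, 12, 11, 10, 9, 8, 7, 6, 5, 4, 3, 2, 1, 0] = true := by decide +kernel

theorem k25 : ck1 (Pool.Agent.V8H54.LT.adjR rows) 34 Lf 25 [24, 23, 22, 21, 20, 19, 18, 17, 16, 15, 14, 13, 12, 11, 10, 9, 8, 7, 6, 5, 4, 3, 2, 1, 0] = true := by decide +kernel

theorem k24 : ck1 (Pool.Agent.V8H54.LT.adjR rows) 34 Lf 24 [23, 22, 21, 20, 19, 18, 17, 16, 15, 14, 13, 12, 11, 10, 9, 8, 7, 6, 5, 4, 3, 2, 1, 0] = true := by decide +kernel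

end Pool.Agent.V8H3.S6K
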