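import Pool.Agent.V8H3.S6.Spec
import Pool.Agent.V8H3.S6C.FacD
import Pool.Agent.V8H3.GC.CkS

/-! the cliques with the largest vertex 14, 13, 12, 11, 10 -/

set_option autoImplicit false
set_option maxRecDepth 1000000

namespace Pool.Agent.V8H3.S6K

open Pool.Agent.V8H3.GC Pool.Agent.V8H3.S6 Pool.Agent.V8H3.S6C

theorem k14 : ck1 (Pool.Agent.V8H54.LT.adjR rows) 34 Lf 14 [13, 12, 11, 10, 9, 8, 7, 6, 5, 4, 3, 2, 1, 0] = true := by decide +kernel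

theorem k13 : ck1 (Pool.Agent.V8H54.LT.adjR rows) 34 Lf 13 [12, 11, 10, 9, 8, 7, 6, 5, 4, 3, 2, 1, 0] = true := by decide +kernel

theorem k12 : ck1 (Pool.Agent.V8H54.LT.adjR rows) 34 Lf 12 [11, 10, 9, 8, 7, 6, 5, 4, 3, 2, 1, 0] = true := by decide +kernel

theorem k11 : ck1 (Pool.Agent.V8H54.LT.adjR rows) 34 Lf 11 [10, 9, 8, 7, 6, 5, 4, 3, 2, 1, 0] = true := by decide +kernel

theorem k10 : ck1 (Pool.Agent.V8H54.LT.adjR rows) 34 Lf 10 [9, 8, 7, 6, 5, 4, 3, 2, 1, 0] = true := by decide +kernel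

end Pool.Agent.V8H3.S6K
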