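import Pool.Agent.V8H3.S6.Spec
import Pool.Agent.V8H3.S6C.FacD
import Pool.Agent.V8H3.GC.CkS

/-! the cliques with the largest vertex 4, 3, 2, 1, 0 -/

set_option autoImplicit false
set_option maxRecDepth 1000000

namespace Pool.Agent.V8H3.S6K

open Pool.Agent.V8H3.GC Pool.Agent.V8H3.S6 Pool.Agent.V8H3.S6C

theorem k4 : ck1 (Pool.Agent.V8H54.LT.adjR rows) 34 Lf 4 [3, 2, 1, 0] = true := by decide +kernel

theorem k3 : ck1 (Pool.Agent.V8H54.LT.adjR rows) 34 Lf 3 [2, 1, 0] = true := by decide +kernel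

theorem k2 : ck1 (Pool.Agent.V8H54.LT.adjR rows) 34 Lf 2 [1, 0] = true := by decide +kernel

theorem k1 : ck1 (Pool.Agent.V8H54.LT.adjR rows) 34 Lf 1 [0] = true := by decide +kernel

theorem k0 : ck1 (Pool.Agent.V8H54.LT.adjR rows) 34 Lf 0 [] = true := by decide +kernel

end Pool.Agent.V8H3.S6K
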