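import Pool.Agent.V8H3.S6K.K0
import Pool.Agent.V8H3.S6K.K1
import Pool.Agent.V8H3.S6K.K2
import Pool.Agent.V8H3.S6K.K3
import Pool.Agent.V8H3.S6K.K4
import Pool.Agent.V8H3.S6K.K5
import Pool.Agent.V8H3.S6K.K6
import Pool.Agent.V8H3.S6K.K7

/-! all the cliques of the graph are faces -/

set_option autoImplicit false
set_option maxRecDepth 1000000

namespace Pool.Agent.V8H3.S6K

open Pool.Agent.V8H3.GC Pool.Agent.V8H3.S6 Pool.Agent.V8H3.S6C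

theorem l0 : lp (Pool.Agent.V8H54.LT.adjR rows) 34 Lf [0] = true := lp_cons (lp_nil _ _ _) k0

theorem l1 : lp (Pool.Agent.V8H54.LT.adjR rows) 34 Lf [1, 0] = true := lp_cons l0 k1

theorem l2 : lp (Pool.Agent.V8H54.LT.adjR rows) 34 Lf [2, 1, 0] = true := lp_cons l1 k2

theorem l3 : lp (Pool.Agent.V8H54.LT.adjR rows) 34 Lf [3, 2, 1, 0] = true := lp_cons l2 k3

theorem l4 : lp (Pool.Agent.V8H54.LT.adjR rows) 34 Lf [4, 3, 2, 1, 0] = true := lp_cons l3 k4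

theorem l5 : lp (Pool.Agent.V8H54.LT.adjR rows) 34 Lf [5, 4, 3, 2, 1, 0] = true := lp_cons l4 k5

theorem l6 : lp (Pool.Agent.V8H54.LT.adjR rows) 34 Lf [6, 5, 4, 3, 2, 1, 0] = true := lp_cons l5 k6

theorem l7 : lp (Pool.Agent.V8H54.LT.adjR rows) 34 Lf [7, 6, 5, 4, 3, 2, 1, 0] = true := lp_cons l6 k7

theorem l8 : lp (Pool.Agent.V8H54.LT.adjR rows) 34 Lf [8, 7, 6, 5, 4, 3, 2, 1, 0] = true := lp_cons l7 k8

theorem l9 : lp (Pool.Agent.V8H54.LT.adjR rows) 34 Lf [9, 8, 7, 6, 5, 4, 3, 2, 1, 0] = true := lp_cons l8 k9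

theorem l10 : lp (Pool.Agent.V8H54.LT.adjR rows) 34 Lf [10, 9, 8, 7, 6, 5, 4, 3, 2, 1, 0] = true := lp_cons l9 k10

theorem l11 : lp (Pool.Agent.V8H54.LT.adjR rows) 34 Lf [11, 10, 9, 8, 7, 6, 5, 4, 3, 2, 1, 0] = true := lp_cons l10 k11

theorem l12 : lp (Pool.Agent.V8H54.LT.adjR rows) 34 Lf [12, 11, 10, 9, 8, 7, 6, 5, 4, 3, 2, 1, 0] = true := lp_cons l11 k12

theorem l13 : lp (Pool.Agent.V8H54.LT.adjR rows) 34 Lf [13, 12, 11, 10, 9, 8, 7, 6, 5, 4, 3, 2, 1, 0] = true := lp_cons l12 k13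

theorem l14 : lp (Pool.Agent.V8H54.LT.adjR rows) 34 Lf [14, 13, 12, 11, 10, 9, 8, 7, 6, 5, 4, 3, 2, 1, 0] = true := lp_cons l13 k14

theorem l15 : lp (Pool.Agent.V8H54.LT.adjR rows) 34 Lf [15, 14, 13, 12, 11, 10, 9, 8, 7, 6, 5, 4, 3, 2, 1, 0] = true := lp_cons l14 k15

theorem l16 : lp (Pool.Agent.V8H54.LT.adjR rows) 34 Lf [16, 15, 14, 13, 12, 11, 10, 9, 8, 7, 6, 5, 4, 3, 2, 1, 0] = true := lp_cons l15 k16

theorem l17 : lp (Pool.Agent.V8H54.LT.adjR rows) 34 Lf [17, 16, 15, 14, 13, 12, 11, 10, 9, 8, 7, 6, 5, 4, 3, 2, 1, 0] = true := lp_cons l16 k17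

theorem l18 : lp (Pool.Agent.V8H54.LT.adjR rows) 34 Lf [18, 17, 16, 15, 14, 13, 12, 11, 10, 9, 8, 7, 6, 5, 4, 3, 2, 1, 0] = true := lp_cons l17 k18

theorem l19 : lp (Pool.Agent.V8H54.LT.adjR rows) 34 Lf [19, 18, 17, 16, 15, 14, 13, 12, 11, 10, 9, 8, 7, 6, 5, 4, 3, 2, 1, 0] = true := lp_cons l18 k19

theorem l20 : lp (Pool.Agent.V8H54.LT.adjR rows) 34 Lf [20, 19, 18, 17, 16, 15, 14, 13, 12, 11, 10, 9, 8, 7, 6, 5, 4, 3, 2, 1, 0] = true := lp_cons l19 k20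

theorem l21 : lp (Pool.Agent.V8H54.LT.adjR rows) 34 Lf [21, 20, 19, 18, 17, 16, 15, 14, 13, 12, 11, 10, 9, 8, 7, 6, 5, 4, 3, 2, 1, 0] = true := lp_cons l20 k21

theorem l22 : lp (Pool.Agent.V8H54.LT.adjR rows) 34 Lf [22, 21, 20, 19, 18, 17, 16, 15, 14, 13, 12, 11, 10, 9, 8, 7, 6, 5, 4, 3, 2, 1, 0] = true := lp_cons l21 k22

theorem l23 : lp (Pool.Agent.V8H54.LT.adjR rows) 34 Lf [23, 22, 21, 20, 19, 18, 17, 16, 15, 14, 13, 12, 11, 10, 9, 8, 7, 6, 5, 4, 3, 2, 1, 0] = true := lp_cons l22 k23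

theorem l24 : lp (Pool.Agent.V8H54.LT.adjR rows) 34 Lf [24, 23, 22, 21, 20, 19, 18, 17, 16, 15, 14, 13, 12, 11, 10, 9, 8, 7, 6, 5, 4, 3, 2, 1, 0] = true := lp_cons l23 k24

theorem l25 : lp (Pool.Agent.V8H54.LT.adjR rows) 34 Lf [25, 24, 23, 22, 21, 20, 19, 18, 17, 16, 15, 14, 13, 12, 11, 10, 9, 8, 7, 6, 5, 4, 3, 2, 1, 0] = true := lp_cons l24 k25

theorem l26 : lp (Pool.Agent.V8H54.LT.adjR rows) 34 Lf [26, 25, 24, 23, 22, 21, 20, 19, 18, 17, 16, 15, 14, 13, 12, 11, 10, 9, 8, 7, 6, 5, 4, 3, 2, 1, 0] = true := lp_cons l25 k26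

theorem l27 : lp (Pool.Agent.V8H54.LT.adjR rows) 34 Lf [27, 26, 25, 24, 23, 22, 21, 20, 19, 18, 17, 16, 15, 14, 13, 12, 11, 10, 9, 8, 7, 6, 5, 4, 3, 2, 1, 0] = true := lp_cons l26 k27

theorem l28 : lp (Pool.Agent.V8H54.LT.adjR rows) 34 Lf [28, 27, 26, 25, 24, 23, 22, 21, 20, 19, 18, 17, 16, 15, 14, 13, 12, 11, 10, 9, 8, 7, 6, 5, 4, 3, 2, 1, 0] = true := lp_cons l27 k28

theorem l29 : lp (Pool.Agent.V8H54.LT.adjR rows) 34 Lf [29, 28, 27, 26, 25, 24, 23, 22, 21, 20, 19, 18, 17, 16, 15, 14, 13, 12, 11, 10, 9, 8, 7, 6, 5, 4, 3, 2, 1, 0] = true := lp_cons l28 k29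

theorem l30 : lp (Pool.Agent.V8H54.LT.adjR rows) 34 Lf [30, 29, 28, 27, 26, 25, 24, 23, 22, 21, 20, 19, 18, 17, 16, 15, 14, 13, 12, 11, 10, 9, 8, 7, 6, 5, 4, 3, 2, 1, 0] = true := lp_cons l29 k30

theorem l31 : lp (Pool.Agent.V8H54.LT.adjR rows) 34 Lf [31, 30, 29, 28, 27, 26, 25, 24, 23, 22, 21, 20, 19, 18, 17, 16, 15, 14, 13, 12, 11, 10, 9, 8, 7, 6, 5, 4, 3, 2, 1, 0] = true := lp_cons l30 k31

theorem l32 : lp (Pool.Agent.V8H54.LT.adjR rows) 34 Lf [32, 31, 30, 29, 28, 27, 26, 25, 24, 23, 22, 21, 20, 19, 18, 17, 16, 15, 14, 13, 12, 11, 10, 9, 8, 7, 6, 5, 4, 3, 2, 1, 0] = true := lp_cons l31 k32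

theorem l33 : lp (Pool.Agent.V8H54.LT.adjR rows) 34 Lf [33, 32, 31, 30, 29, 28, 27, 26, 25, 24, 23, 22, 21, 20, 19, 18, 17, 16, 15, 14, 13, 12, 11, 10, 9, 8, 7, 6, 5, 4, 3, 2, 1, 0] = true := lp_cons l32 k33

theorem rg : (List.range 34).reverse = [33, 32, 31, 30, 29, 28, 27, 26, 25, 24, 23, 22, 21, 20, 19, 18, 17, 16, 15, 14, 13, 12, 11, 10, 9, 8, 7, 6, 5, 4, 3, 2, 1, 0] := by decide

theorem cliques : Pool.Agent.V8H50.GC.ckK 34 (Pool.Agent.V8H54.LT.adjR rows) Lf = true := ckK_of (by decide +kernel) (by rw [rg]; exact l33)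

end Pool.Agent.V8H3.S6K
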